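import Mathlib

/-!
# Monotone minorants with large derivative product, in every dimension

The minorant is the supremum of the values of chains: starting from the value `0` at any point, one
moves up from `b` to `y ≥ b` and replaces the value `v` by `min (u b) (v + κ G (y - b))`, where `G`
is the geometric mean. Superadditivity of `G` bounds the gain inside a slab, which gives continuity,
and where the minorant is below `u` a last step from the point itself gives the derivative bound.
-/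

set_option autoImplicit false

namespace Pool.Agent.Results.MP_b39627_an.MinorantAllDim

open Filter Topology Finset Set

variable {m : ℕ}

/-- The geometric mean of the coordinates. -/
noncomputable def G (x : Fin m → ℝ) : ℝ := ∏ i, x i ^ (1 / (m : ℝ))

/-- The product without the factor number `i`. -/
noncomputable def P (i : Fin m) (x : Fin m → ℝ) : ℝ := ∏ l ∈ univ.erase i, x l ^ (1 / (m : ℝ))

theorem G_nonneg {x : Fin m → ℝ} (hx : 0 ≤ x) : 0 ≤ G x :=
  Finset.prod_nonneg fun i _ => Real.rpow_nonneg (hx i) _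

theorem P_nonneg (i : Fin m) {x : Fin m → ℝ} (hx : 0 ≤ x) : 0 ≤ P i x :=
  Finset.prod_nonneg fun i _ => Real.rpow_nonneg (hx i) _

theorem G_eq (i : Fin m) (x : Fin m → ℝ) : G x = x i ^ (1 / (m : ℝ)) * P i x :=
  (Finset.mul_prod_erase univ (fun l => x l ^ (1 / (m : ℝ))) (mem_univ i)).symm

theorem P_congr (i : Fin m) {x y : Fin m → ℝ} (h : ∀ l, l ≠ i → x l = y l) : P i x = P i y :=
  Finset.prod_congr rfl fun l hl => by rw [h l (ne_of_mem_erase hl)]

theorem P_mono (i : Fin m) {x y : Fin m → ℝ} (hx : 0 ≤ x) (h : x ≤ y) : P i x ≤ P i y :=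
  Finset.prod_le_prod (fun l _ => Real.rpow_nonneg (hx l) _)
    fun l _ => Real.rpow_le_rpow (hx l) (h l) (by positivity)

theorem G_update (i : Fin m) (x : Fin m → ℝ) (c : ℝ) :
    G (Function.update x i c) = c ^ (1 / (m : ℝ)) * P i x := by
  rw [G_eq i, Function.update_self]
  congr 1
  exact P_congr i fun l hl => Function.update_of_ne hl _ _

/-- Superadditivity of the geometric mean. -/
theorem G_superadd (hm : 0 < m) {a b : Fin m → ℝ} (ha : 0 ≤ a) (hb : 0 ≤ b) :
    G a + G b ≤ G (a + b) := by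
  have hm' : (0 : ℝ) < m := by exact_mod_cast hm
  have hp : (1 / (m : ℝ)) ≠ 0 := by positivity
  by_cases h : ∃ i, a i + b i = 0
  · obtain ⟨i, hi⟩ := h
    have h1 : a i = 0 := le_antisymm (by have := hb i; simp at this; linarith) (ha i)
    have h2 : b i = 0 := by linarith
    rw [G_eq i a, G_eq i b, h1, h2, Real.zero_rpow hp, zero_mul, zero_mul, add_zero]
    exact G_nonneg (add_nonneg ha hb)
  · push Not at h
    have hpos : ∀ i, 0 < a i + b i := fun i =>
      lt_of_le_of_ne (add_nonneg (ha i) (hb i)) (h i).symm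
    have hGpos : 0 < G (a + b) := Finset.prod_pos fun i _ => Real.rpow_pos_of_pos (hpos i) _
    have key : ∀ c : Fin m → ℝ, 0 ≤ c → G c / G (a + b) ≤ ∑ i, 1 / (m : ℝ) * (c i / (a i + b i)) := by
      intro c hc
      have h3 := Real.geom_mean_le_arith_mean_weighted univ (fun _ : Fin m => 1 / (m : ℝ))
        (fun i => c i / (a i + b i)) (fun i _ => by positivity) (by simp [hm'.ne'])
        (fun i _ => div_nonneg (hc i) (hpos i).le)
      refine le_trans (le_of_eq ?_) h3
      rw [G, G, ← Finset.prod_div_distrib]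
      refine Finset.prod_congr rfl fun i _ => ?_
      rw [Pi.add_apply, Real.div_rpow (hc i) (hpos i).le]
    have h4 := add_le_add (key a ha) (key b hb)
    rw [← add_div, ← Finset.sum_add_distrib, div_le_iff₀ hGpos] at h4
    have h5 : ∑ i : Fin m, (1 / (m : ℝ) * (a i / (a i + b i)) + 1 / (m : ℝ) * (b i / (a i + b i)))
        = 1 := by
      have h6 : ∀ i : Fin m, 1 / (m : ℝ) * (a i / (a i + b i)) + 1 / (m : ℝ) * (b i / (a i + b i)) =
          1 / (m : ℝ) := by
        intro i
        have := (hpos i).ne'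
        rw [← mul_add, ← add_div, div_self this, mul_one]
      rw [Finset.sum_congr rfl fun i _ => h6 i]
      simp [hm'.ne']
    rw [h5, one_mul] at h4
    exact h4

/-- Values reachable by chains. -/
inductive Reach (u : (Fin m → ℝ) → ℝ) (κ : ℝ) : (Fin m → ℝ) → ℝ → Prop
  | base (x : Fin m → ℝ) (hx : 0 ≤ x) : Reach u κ x 0
  | step (b y : Fin m → ℝ) (v : ℝ) (h : Reach u κ b v) (hby : b ≤ y) :
      Reach u κ y (min (u b) (v + κ * G (y - b)))

/-- The minorant. -/
noncomputable def w (u : (Fin m → ℝ) → ℝ) (κ : ℝ) (x : Fin m → ℝ) : ℝ := sSup {v | Reach u κ x v}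

section

variable {u : (Fin m → ℝ) → ℝ} {κ : ℝ}

theorem Reach.nonneg_point {x : Fin m → ℝ} {v : ℝ} (h : Reach u κ x v) : 0 ≤ x := by
  induction h with
  | base x hx => exact hx
  | step b y v _ hby ih => exact ih.trans hby

theorem Reach.le (hu : ∀ x, 0 ≤ x → 0 ≤ u x) (hmono : ∀ x y, 0 ≤ x → x ≤ y → u x ≤ u y)
    {x : Fin m → ℝ} {v : ℝ} (h : Reach u κ x v) : v ≤ u x := by
  induction h with
  | base x hx => exact hu x hx
  | step b y v h hby ih =>
    exact (min_le_left _ _).trans (hmono b y h.nonneg_point hby)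

theorem bddAbove (hu : ∀ x, 0 ≤ x → 0 ≤ u x) (hmono : ∀ x y, 0 ≤ x → x ≤ y → u x ≤ u y)
    (x : Fin m → ℝ) : BddAbove {v | Reach u κ x v} :=
  ⟨u x, fun _ hv => hv.le hu hmono⟩

theorem w_nonneg (hu : ∀ x, 0 ≤ x → 0 ≤ u x) (hmono : ∀ x y, 0 ≤ x → x ≤ y → u x ≤ u y)
    {x : Fin m → ℝ} (hx : 0 ≤ x) : 0 ≤ w u κ x :=
  le_csSup (bddAbove hu hmono x) (Reach.base x hx)

theorem w_le (hu : ∀ x, 0 ≤ x → 0 ≤ u x) (hmono : ∀ x y, 0 ≤ x → x ≤ y → u x ≤ u y)
    {x : Fin m → ℝ} (hx : 0 ≤ x) : w u κ x ≤ u x :=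
  csSup_le ⟨0, Reach.base x hx⟩ fun _ hv => hv.le hu hmono

theorem Reach.le_w (hu : ∀ x, 0 ≤ x → 0 ≤ u x) (hmono : ∀ x y, 0 ≤ x → x ≤ y → u x ≤ u y)
    {x : Fin m → ℝ} {v : ℝ} (h : Reach u κ x v) : v ≤ w u κ x :=
  le_csSup (bddAbove hu hmono x) h

/-- The supersolution property. -/
theorem w_step (hu : ∀ x, 0 ≤ x → 0 ≤ u x) (hmono : ∀ x y, 0 ≤ x → x ≤ y → u x ≤ u y)
    {b y : Fin m → ℝ} (hb : 0 ≤ b) (hby : b ≤ y) :
    min (u b) (w u κ b + κ * G (y - b)) ≤ w u κ y := by
  by_contra hcon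
  push Not at hcon
  rw [lt_min_iff] at hcon
  obtain ⟨h1, h2⟩ := hcon
  have h3 : w u κ y - κ * G (y - b) < w u κ b := by linarith
  obtain ⟨v, hv, h4⟩ := exists_lt_of_lt_csSup ⟨0, Reach.base b hb⟩ h3
  have h5 := (Reach.step b y v hv hby).le_w hu hmono
  have h6 : w u κ y < min (u b) (v + κ * G (y - b)) := lt_min h1 (by linarith)
  linarith

theorem w_mono (hκ : 0 ≤ κ) (hu : ∀ x, 0 ≤ x → 0 ≤ u x)
    (hmono : ∀ x y, 0 ≤ x → x ≤ y → u x ≤ u y) {x y : Fin m → ℝ} (hx : 0 ≤ x) (hxy : x ≤ y) :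
    w u κ x ≤ w u κ y := by
  refine le_trans (le_min (w_le hu hmono hx) ?_) (w_step hu hmono hx hxy)
  have : 0 ≤ κ * G (y - x) := mul_nonneg hκ (G_nonneg (sub_nonneg.2 hxy))
  linarith

/-- The modulus in the coordinate number `i`, for chains. -/
theorem Reach.lower (hm : 0 < m) (hκ : 0 ≤ κ) (hu : ∀ x, 0 ≤ x → 0 ≤ u x)
    (hmono : ∀ x y, 0 ≤ x → x ≤ y → u x ≤ u y) (i : Fin m) {t : ℝ} (ht : 0 ≤ t)
    {x : Fin m → ℝ} {v : ℝ} (h : Reach u κ x v) :
    v ≤ w u κ (Function.update x i (min (x i) t)) +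
      κ * ((max (x i - t) 0) ^ (1 / (m : ℝ)) * P i x) := by
  have hm' : (0 : ℝ) < m := by exact_mod_cast hm
  have hp0 : 0 ≤ (1 / (m : ℝ)) := by positivity
  have hp1 : (1 / (m : ℝ)) ≤ 1 := by
    rw [div_le_one hm']
    exact_mod_cast hm
  induction h with
  | base x hx =>
    have h1 : 0 ≤ Function.update x i (min (x i) t) := by
      intro l
      by_cases hl : l = i
      · subst hl; simp only [Function.update_self]; exact le_min (hx l) ht
      · rw [Function.update_of_ne hl]; exact hx l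
    have h2 := w_nonneg (κ := κ) hu hmono h1
    have h3 : 0 ≤ κ * ((max (x i - t) 0) ^ (1 / (m : ℝ)) * P i x) :=
      mul_nonneg hκ (mul_nonneg (Real.rpow_nonneg (le_max_right _ _) _) (P_nonneg i hx))
    linarith
  | step b y v h hby ih =>
    have hb : 0 ≤ b := h.nonneg_point
    have hy : 0 ≤ y := hb.trans hby
    rcases le_or_gt (b i) t with hbt | hbt
    · -- the start of the step is below level `t`
      set y' := Function.update y i (min (y i) t) with hy'
      have hby' : b ≤ y' := by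
        intro l
        by_cases hl : l = i
        · subst hl; simp only [hy', Function.update_self]; exact le_min (hby l) hbt
        · simp only [hy']; rw [Function.update_of_ne hl]; exact hby l
      have h1 := w_step (κ := κ) hu hmono hb hby'
      have h2 : v ≤ w u κ b := h.le_w hu hmono
      have h3 : G (y - b) ≤ G (y' - b) + (max (y i - t) 0) ^ (1 / (m : ℝ)) * P i y := by
        rw [G_eq i (y - b), G_eq i (y' - b)]
        have e1 : P i (y' - b) = P i (y - b) := P_congr i fun l hl => by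
          simp only [hy', Pi.sub_apply]; rw [Function.update_of_ne hl]
        have e2 : (y' - b) i = min (y i) t - b i := by
          simp only [hy', Pi.sub_apply, Function.update_self]
        rw [e1, e2, Pi.sub_apply]
        have e3 : P i (y - b) ≤ P i y := P_mono i (sub_nonneg.2 hby) fun l => by
          have := hb l; simp only [Pi.sub_apply]; simp at this; linarith
        have e4 : 0 ≤ P i (y - b) := P_nonneg i (sub_nonneg.2 hby)
        have e5 : (y i - b i) ^ (1 / (m : ℝ)) ≤ (min (y i) t - b i) ^ (1 / (m : ℝ)) +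
            (max (y i - t) 0) ^ (1 / (m : ℝ)) := by
          have e6 : y i - b i = (min (y i) t - b i) + max (y i - t) 0 := by
            rcases le_total (y i) t with h | h
            · rw [min_eq_left h, max_eq_right (by linarith)]; ring
            · rw [min_eq_right h, max_eq_left (by linarith)]; ring
          conv_lhs => rw [e6]
          exact Real.rpow_add_le_add_rpow (sub_nonneg.2 (le_min (hby i) hbt)) (le_max_right _ _)
            hp0 hp1
        calc (y i - b i) ^ (1 / (m : ℝ)) * P i (y - b)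
            ≤ ((min (y i) t - b i) ^ (1 / (m : ℝ)) +
              (max (y i - t) 0) ^ (1 / (m : ℝ))) * P i (y - b) :=
              mul_le_mul_of_nonneg_right e5 e4
          _ = (min (y i) t - b i) ^ (1 / (m : ℝ)) * P i (y - b) +
              (max (y i - t) 0) ^ (1 / (m : ℝ)) * P i (y - b) := by ring
          _ ≤ _ := by
              have := mul_le_mul_of_nonneg_left e3
                (Real.rpow_nonneg (le_max_right (y i - t) 0) (1 / (m : ℝ)))
              linarith
      have h4 : κ * G (y - b) ≤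
          κ * G (y' - b) + κ * ((max (y i - t) 0) ^ (1 / (m : ℝ)) * P i y) := by
        rw [← mul_add]; exact mul_le_mul_of_nonneg_left h3 hκ
      have h5 : 0 ≤ κ * ((max (y i - t) 0) ^ (1 / (m : ℝ)) * P i y) :=
        mul_nonneg hκ (mul_nonneg (Real.rpow_nonneg (le_max_right _ _) _) (P_nonneg i hy))
      have h6 : min (u b) (v + κ * G (y - b)) ≤ min (u b) (w u κ b + κ * G (y' - b)) +
          κ * ((max (y i - t) 0) ^ (1 / (m : ℝ)) * P i y) := by
        rw [← min_add_add_right]
        apply min_le_min <;> linarith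
      linarith
    · -- the whole step is above level `t`
      have hyt : t < y i := hbt.trans_le (hby i)
      rw [min_eq_right hbt.le, max_eq_left (by linarith)] at ih
      rw [min_eq_right hyt.le, max_eq_left (by linarith)]
      have h1 : Function.update b i t ≤ Function.update y i t := by
        intro l
        by_cases hl : l = i
        · subst hl; simp
        · rw [Function.update_of_ne hl, Function.update_of_ne hl]; exact hby l
      have h0 : 0 ≤ Function.update b i t := by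
        intro l
        by_cases hl : l = i
        · subst hl; simpa using ht
        · rw [Function.update_of_ne hl]; exact hb l
      have h2 := w_mono hκ hu hmono h0 h1
      have h3 : (b i - t) ^ (1 / (m : ℝ)) * P i b + G (y - b) ≤
          (y i - t) ^ (1 / (m : ℝ)) * P i y := by
        rw [← G_update i b (b i - t), ← G_update i y (y i - t)]
        have e1 : Function.update y i (y i - t) = Function.update b i (b i - t) + (y - b) := by
          funext l
          by_cases hl : l = i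
          · subst hl; simp
          · simp [Function.update_of_ne hl]
        rw [e1]
        refine G_superadd hm ?_ (sub_nonneg.2 hby)
        intro l
        by_cases hl : l = i
        · subst hl; simp; linarith
        · rw [Function.update_of_ne hl]; exact hb l
      have h4 := mul_le_mul_of_nonneg_left h3 hκ
      rw [mul_add] at h4
      have h5 := min_le_right (u b) (v + κ * G (y - b))
      linarith

/-- The modulus in the coordinate number `i`. -/
theorem w_lower (hm : 0 < m) (hκ : 0 ≤ κ) (hu : ∀ x, 0 ≤ x → 0 ≤ u x)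
    (hmono : ∀ x y, 0 ≤ x → x ≤ y → u x ≤ u y) (i : Fin m) {t : ℝ} (ht : 0 ≤ t)
    {x : Fin m → ℝ} (hx : 0 ≤ x) :
    w u κ x ≤ w u κ (Function.update x i (min (x i) t)) +
      κ * ((max (x i - t) 0) ^ (1 / (m : ℝ)) * P i x) :=
  csSup_le ⟨0, Reach.base x hx⟩ fun _ hv => Reach.lower hm hκ hu hmono i ht hv

/-- The joint modulus. -/
theorem w_modulus (hm : 0 < m) (hκ : 0 ≤ κ) (hu : ∀ x, 0 ≤ x → 0 ≤ u x)
    (hmono : ∀ x y, 0 ≤ x → x ≤ y → u x ≤ u y) {x y : Fin m → ℝ} (hx : 0 ≤ x) (hy : 0 ≤ y) :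
    w u κ y ≤ w u κ x + κ * ∑ i, (max (y i - x i) 0) ^ (1 / (m : ℝ)) * P i y := by
  have key : ∀ s : Finset (Fin m), w u κ y ≤ w u κ (s.piecewise (x ⊓ y) y) +
      κ * ∑ i ∈ s, (max (y i - x i) 0) ^ (1 / (m : ℝ)) * P i y := by
    intro s
    induction s using Finset.induction_on with
    | empty => simp
    | insert i s hi ih =>
      set z := s.piecewise (x ⊓ y) y with hz
      have hzi : z i = y i := Finset.piecewise_eq_of_notMem _ _ _ hi
      have hz0 : 0 ≤ z := by
        intro l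
        simp only [hz]
        by_cases hl : l ∈ s
        · rw [Finset.piecewise_eq_of_mem _ _ _ hl]; exact le_inf (hx l) (hy l)
        · rw [Finset.piecewise_eq_of_notMem _ _ _ hl]; exact hy l
      have hzy : z ≤ y := by
        intro l
        simp only [hz]
        by_cases hl : l ∈ s
        · rw [Finset.piecewise_eq_of_mem _ _ _ hl]; exact inf_le_right
        · rw [Finset.piecewise_eq_of_notMem _ _ _ hl]
      have h1 := w_lower hm hκ hu hmono i (hx i) hz0
      have h2 : (insert i s).piecewise (x ⊓ y) y = Function.update z i (min (z i) (x i)) := by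
        rw [Finset.piecewise_insert, hzi]
        congr 1
        exact inf_comm _ _
      rw [Finset.sum_insert hi, h2]
      have h3 : κ * ((max (z i - x i) 0) ^ (1 / (m : ℝ)) * P i z) ≤
          κ * ((max (y i - x i) 0) ^ (1 / (m : ℝ)) * P i y) := by
        rw [hzi]
        exact mul_le_mul_of_nonneg_left (mul_le_mul_of_nonneg_left (P_mono i hz0 hzy)
          (Real.rpow_nonneg (le_max_right _ _) _)) hκ
      rw [mul_add]
      linarith
  have h := key univ
  rw [Finset.piecewise_univ] at h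
  have h2 : w u κ (x ⊓ y) ≤ w u κ x := w_mono hκ hu hmono (le_inf hx hy) inf_le_left
  linarith

theorem continuousOn_w (hm : 0 < m) (hκ : 0 ≤ κ) (hu : ∀ x, 0 ≤ x → 0 ≤ u x)
    (hmono : ∀ x y, 0 ≤ x → x ≤ y → u x ≤ u y) :
    ContinuousOn (w u κ) {x : Fin m → ℝ | 0 ≤ x} := by
  have hm' : (0 : ℝ) < m := by exact_mod_cast hm
  have hp : 0 < (1 / (m : ℝ)) := by positivity
  have hz : (0 : ℝ) ^ ((m : ℝ)⁻¹) = 0 := Real.zero_rpow (inv_pos.2 hm').ne'
  intro x hx
  have hx : 0 ≤ x := hx
  rw [ContinuousWithinAt, Metric.tendsto_nhds]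
  intro ε hε
  have hc1 : Continuous fun y : Fin m → ℝ =>
      κ * ∑ i, (max (y i - x i) 0) ^ (1 / (m : ℝ)) * P i y := by
    refine continuous_const.mul (continuous_finsetSum _ fun i _ => ?_)
    refine Continuous.mul ?_ ?_
    · refine Continuous.rpow_const (by fun_prop) fun _ => Or.inr hp.le
    · refine continuous_finsetProd _ fun l _ => ?_
      exact Continuous.rpow_const (by fun_prop) fun _ => Or.inr hp.le
  have hc2 : Continuous fun y : Fin m → ℝ =>
      κ * ∑ i, (max (x i - y i) 0) ^ (1 / (m : ℝ)) * P i x := by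
    refine continuous_const.mul (continuous_finsetSum _ fun i _ => ?_)
    refine Continuous.mul ?_ continuous_const
    exact Continuous.rpow_const (by fun_prop) fun _ => Or.inr hp.le
  have h1 : Tendsto (fun y : Fin m → ℝ =>
      κ * ∑ i, (max (y i - x i) 0) ^ (1 / (m : ℝ)) * P i y) (𝓝 x) (𝓝 0) := by
    have := hc1.tendsto x
    simpa [hz] using this
  have h2 : Tendsto (fun y : Fin m → ℝ =>
      κ * ∑ i, (max (x i - y i) 0) ^ (1 / (m : ℝ)) * P i x) (𝓝 x) (𝓝 0) := by
    have := hc2.tendsto x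
    simpa [hz] using this
  have h3 := h1.eventually (gt_mem_nhds hε)
  have h4 := h2.eventually (gt_mem_nhds hε)
  filter_upwards [mem_nhdsWithin_of_mem_nhds h3, mem_nhdsWithin_of_mem_nhds h4,
    self_mem_nhdsWithin] with y h5 h6 h7
  have h8 := w_modulus hm hκ hu hmono hx h7
  have h9 := w_modulus hm hκ hu hmono h7 hx
  rw [Real.dist_eq, abs_lt]
  constructor <;> linarith

/-- The derivative dominates the geometric mean where the minorant is below `u`. -/
theorem deriv_ge (hu : ∀ x, 0 ≤ x → 0 ≤ u x)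
    (hmono : ∀ x y, 0 ≤ x → x ≤ y → u x ≤ u y) (hm : 0 < m) {x : Fin m → ℝ} (hx : 0 ≤ x)
    (hlt : w u κ x < u x) {L : (Fin m → ℝ) →L[ℝ] ℝ}
    (hL : HasFDerivWithinAt (w u κ) L {x : Fin m → ℝ | 0 ≤ x} x) {ξ : Fin m → ℝ}
    (hξ : ∀ i, 0 < ξ i) : κ * G ξ ≤ L ξ := by
  have hm' : (0 : ℝ) < m := by exact_mod_cast hm
  have hline : HasDerivWithinAt (fun t : ℝ => x + t • ξ) ξ (Ioi 0) 0 := by
    have h1 : HasDerivAt (fun t : ℝ => x + t • ξ) ξ 0 := by
      simpa using ((hasDerivAt_id (0 : ℝ)).smul_const ξ).const_add x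
    exact h1.hasDerivWithinAt
  have hmaps : MapsTo (fun t : ℝ => x + t • ξ) (Ioi 0) {x : Fin m → ℝ | 0 ≤ x} := by
    intro t ht i
    have h1 := hx i
    have h2 := mul_pos (Set.mem_Ioi.1 ht) (hξ i)
    simp only [Pi.zero_apply, Pi.add_apply, Pi.smul_apply, smul_eq_mul] at h1 h2 ⊢
    linarith
  have hL' : HasFDerivWithinAt (w u κ) L {x : Fin m → ℝ | 0 ≤ x} (x + (0 : ℝ) • ξ) := by
    simpa using hL
  have hcomp := hL'.comp_hasDerivWithinAt (0 : ℝ) hline hmaps
  rw [hasDerivWithinAt_iff_tendsto_slope' (by simp)] at hcomp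
  refine ge_of_tendsto hcomp ?_
  have hG : 0 ≤ G ξ := G_nonneg fun i => (hξ i).le
  have hsmall : ∀ᶠ t : ℝ in 𝓝[>] 0, w u κ x + t * (κ * G ξ) < u x := by
    have h1 : Tendsto (fun t : ℝ => w u κ x + t * (κ * G ξ)) (𝓝[>] 0)
        (𝓝 (w u κ x + 0 * (κ * G ξ))) := by
      apply Tendsto.mono_left _ nhdsWithin_le_nhds
      exact Continuous.tendsto (by fun_prop) 0
    rw [zero_mul, add_zero] at h1
    exact h1.eventually (gt_mem_nhds hlt)
  filter_upwards [hsmall, self_mem_nhdsWithin] with t ht ht0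
  have ht0 : 0 < t := ht0
  rw [slope_def_field]
  simp only [Function.comp_apply, zero_smul, add_zero, sub_zero]
  rw [le_div_iff₀ ht0]
  have hxy : x ≤ x + t • ξ := by
    intro i
    have h2 := mul_pos ht0 (hξ i)
    simp only [Pi.add_apply, Pi.smul_apply, smul_eq_mul]
    linarith
  have h3 := w_step (κ := κ) hu hmono hx hxy
  have h4 : G (x + t • ξ - x) = t * G ξ := by
    rw [add_sub_cancel_left, G, G]
    have h5 : ∀ i : Fin m, (t • ξ) i ^ (1 / (m : ℝ)) = t ^ (1 / (m : ℝ)) * ξ i ^ (1 / (m : ℝ)) := by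
      intro i
      rw [Pi.smul_apply, smul_eq_mul, Real.mul_rpow ht0.le (hξ i).le]
    rw [Finset.prod_congr rfl fun i _ => h5 i, Finset.prod_mul_distrib, Finset.prod_const,
      Finset.card_univ, Fintype.card_fin, ← Real.rpow_natCast, ← Real.rpow_mul ht0.le,
      one_div_mul_cancel hm'.ne', Real.rpow_one]
  rw [h4, min_eq_right (by nlinarith)] at h3
  nlinarith

end

/-- The algebraic step: if `κ G(ξ) ≤ ∑ ξᵢ Lᵢ` for all positive `ξ` then `∏ Lᵢ ≥ (κ/m)^m`. -/
theorem prod_ge (hm : 0 < m) {κ : ℝ} (hκ : 0 < κ) {L : Fin m → ℝ}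
    (h : ∀ ξ : Fin m → ℝ, (∀ i, 0 < ξ i) → κ * G ξ ≤ ∑ i, ξ i * L i) :
    (κ / m) ^ m ≤ ∏ i, L i := by
  have hm' : (0 : ℝ) < m := by exact_mod_cast hm
  have hpos : ∀ i, 0 < L i := by
    intro i
    by_contra hcon
    push Not at hcon
    set S : ℝ := ∑ l ∈ univ.erase i, L l with hS
    have h0 : 0 < (|S| + 1) / κ := by positivity
    set N : ℝ := ((|S| + 1) / κ) ^ m with hN
    have hN0 : 0 < N := by positivity
    have h1 := h (Function.update (fun _ => 1) i N) (by
      intro l
      by_cases hl : l = i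
      · subst hl; simpa using hN0
      · rw [Function.update_of_ne hl]; exact one_pos)
    rw [G_update] at h1
    have h2 : P i (fun _ : Fin m => (1 : ℝ)) = 1 := by simp [P]
    have h3 : N ^ (1 / (m : ℝ)) = (|S| + 1) / κ := by
      rw [hN, ← Real.rpow_natCast, ← Real.rpow_mul h0.le, mul_one_div_cancel hm'.ne', Real.rpow_one]
    have h4 : ∑ l, Function.update (fun _ : Fin m => (1 : ℝ)) i N l * L l = N * L i + S := by
      rw [← Finset.add_sum_erase univ _ (mem_univ i), Function.update_self, hS]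
      congr 1
      refine Finset.sum_congr rfl fun l hl => ?_
      rw [Function.update_of_ne (ne_of_mem_erase hl), one_mul]
    rw [h2, h3, h4, mul_one, mul_div_cancel₀ _ hκ.ne'] at h1
    have h5 : N * L i ≤ 0 := mul_nonpos_of_nonneg_of_nonpos hN0.le hcon
    have h6 := le_abs_self S
    linarith
  have h1 := h (fun i => (L i)⁻¹) fun i => inv_pos.2 (hpos i)
  have h2 : ∑ i, (L i)⁻¹ * L i = m := by
    rw [Finset.sum_congr rfl fun i _ => inv_mul_cancel₀ (hpos i).ne']
    simp
  rw [h2] at h1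
  have h3 : G (fun i => (L i)⁻¹) = (∏ i, L i)⁻¹ ^ (1 / (m : ℝ)) := by
    rw [G, ← Finset.prod_inv_distrib, Real.finsetProd_rpow _ _ fun i _ => (inv_pos.2 (hpos i)).le]
  have hprod : 0 < ∏ i, L i := Finset.prod_pos fun i _ => hpos i
  have h4 : 0 ≤ G (fun i => (L i)⁻¹) := G_nonneg fun i => (inv_pos.2 (hpos i)).le
  have h5 : (κ * G (fun i => (L i)⁻¹)) ^ m ≤ (m : ℝ) ^ m :=
    pow_le_pow_left₀ (by positivity) h1 m
  rw [mul_pow, h3, ← Real.rpow_natCast (((∏ i, L i)⁻¹) ^ (1 / (m : ℝ))),
    ← Real.rpow_mul (inv_pos.2 hprod).le, one_div_mul_cancel hm'.ne', Real.rpow_one] at h5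
  rw [div_pow, div_le_iff₀ (by positivity)]
  rw [← div_eq_mul_inv, div_le_iff₀ hprod] at h5
  linarith

/-- **Main theorem.** In every dimension `m ≥ 1` (in particular for all `m ≥ 3`). -/
theorem result : ∀ m : ℕ, 1 ≤ m → ∀ u : (Fin m → ℝ) → ℝ,
    (∀ x, 0 ≤ x → 0 ≤ u x) → MonotoneOn u {x : Fin m → ℝ | 0 ≤ x} →
    (∀ x, 0 ≤ x → (∃ i, x i = 0) → u x = 0) → ∀ C : ℝ, 0 < C →
    ∃ v : (Fin m → ℝ) → ℝ, ContinuousOn v {x : Fin m → ℝ | 0 ≤ x} ∧
      MonotoneOn v {x : Fin m → ℝ | 0 ≤ x} ∧ (∀ x, 0 ≤ x → 0 ≤ v x ∧ v x ≤ u x) ∧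
      ∀ x, 0 ≤ x → v x ≠ u x → ∀ L : (Fin m → ℝ) →L[ℝ] ℝ,
        HasFDerivWithinAt v L {x : Fin m → ℝ | 0 ≤ x} x → C ≤ ∏ i, L (Pi.single i 1) := by
  intro m hm u hu hmono _ C hC
  have hm0 : 0 < m := hm
  have hm' : (0 : ℝ) < m := by exact_mod_cast hm0
  have hmono' : ∀ x y, 0 ≤ x → x ≤ y → u x ≤ u y := fun x y hx hxy =>
    hmono hx (show 0 ≤ y from hx.trans hxy) hxy
  set κ : ℝ := m * C ^ (1 / (m : ℝ)) with hκdef
  have hκ : 0 < κ := by positivity
  refine ⟨w u κ, continuousOn_w hm0 hκ.le hu hmono', fun x hx y _ hxy =>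
    w_mono hκ.le hu hmono' hx hxy, fun x hx => ⟨w_nonneg hu hmono' hx, w_le hu hmono' hx⟩, ?_⟩
  intro x hx hne L hL
  have hlt : w u κ x < u x := lt_of_le_of_ne (w_le hu hmono' hx) hne
  have h1 : (κ / m) ^ m ≤ ∏ i, L (Pi.single i 1) := by
    refine prod_ge hm0 hκ fun ξ hξ => ?_
    refine (deriv_ge hu hmono' hm0 hx hlt hL hξ).trans (le_of_eq ?_)
    have h2 : ξ = ∑ i, ξ i • (Pi.single i (1 : ℝ) : Fin m → ℝ) := by
      funext j
      simp [Finset.sum_apply, Pi.single_apply]
    conv_lhs => rw [h2]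
    simp only [map_sum, map_smul, smul_eq_mul]
  refine le_trans (le_of_eq ?_) h1
  rw [hκdef, mul_div_cancel_left₀ _ hm'.ne', ← Real.rpow_natCast, ← Real.rpow_mul hC.le,
    one_div_mul_cancel hm'.ne', Real.rpow_one]

end Pool.Agent.Results.MP_b39627_an.MinorantAllDim
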